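import Pool.Agent.NH63.D2.Bounds

set_option autoImplicit false
open N6ef48c04

namespace Pool.Agent.Results.MP_964892_co.DistanceTwoDomination

/-!
# Meyniel's bound for graphs with a small distance-two dominating set

Let `G` be a connected graph on `n` vertices in which all but `m` vertices are at distance at most `2`
from a set of `K` vertices. Then `c(G) ≤ 2 √(n K) + 81 √m (log n + 1)`. So Meyniel's bound holds for
graphs of radius `2` (`c(G) ≤ 2 √n`), for bounded distance-two domination number, and it is enough that
this is so up to `n / (log n + 1) ^ 2` vertices. The same is true if all but `m` vertices have at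
least `n / K` vertices within distance `2`. For graphs without cycles of length less than `4 r - 1`
the number `2` can be replaced by `r + 1`.

Proof idea. A greedy choice of at most `n / (s + 1)` guards leaves at most `s` unguarded vertices
within distance `r` of every vertex. The vertices which have at least `s` cops of a second team within
distance `r + 1` are cleared as follows: when `r` rounds are left for the robber, at most `s` of them
are in question, and by Hall's theorem different cops of the second team can walk to them in time. The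
entropy method of the starting files (`W149.VD`, `TH524.Mey`) deals with the other vertices.
-/

/-- Let `G` be a connected graph on `n` vertices without cycles of length less than `4 r - 1` (no
condition for `r ≤ 1`).
(1) For all `s` and all positions `y i` of `k` cops: `c(G) ≤ n / (s + 1) + k + 81 √m (log n + 1)`, where
`m` is the number of vertices with fewer than `s` of these cops within distance `r + 1`.
(2) For every nonempty set `D`: `c(G) ≤ 2 √(n |D|) + 81 √m (log n + 1)`, where `m` is the number of
vertices at distance more than `r + 1` from all vertices of `D`; so `c(G) ≤ (2 √|D| + 81) √n` if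
`m ≤ n / (log n + 1) ^ 2`.
(3) For every `b ≥ 1`: `c(G) ≤ 3 n / √b + (2 n / b) log n + 1 + 81 √m (log n + 1)`, where `m` is the
number of vertices with fewer than `b` vertices within distance `r + 1`.
(4) If all but at most `n / (log n + 1) ^ 2` vertices have at least `n / K` vertices within distance
`r + 1`, then `c(G) ≤ (5 K + 82) √n`. -/
theorem result {V : Type*} [Fintype V] [DecidableEq V] (G : SimpleGraph V) (hG : G.Connected) (r : ℕ)
    (hr : ∀ (a : V) (w : G.Walk a a), w.IsCycle → 4 * r - 1 ≤ w.length) :
    (∀ (s k : ℕ) (y : Fin k → V), (copNumber G : ℝ) ≤ Fintype.card V / (s + 1) + k +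
      81 * √((Finset.univ.filter fun z =>
        (Finset.univ.filter fun i => G.dist (y i) z ≤ r + 1).card < s).card : ℝ) *
          (Real.log (Fintype.card V) + 1)) ∧
    (∀ D : Finset V, D.Nonempty →
      (copNumber G : ℝ) ≤ 2 * √(Fintype.card V * D.card : ℝ) +
        81 * √((Finset.univ.filter fun z => ∀ d ∈ D, r + 1 < G.dist d z).card : ℝ) *
          (Real.log (Fintype.card V) + 1) ∧
      (((Finset.univ.filter fun z => ∀ d ∈ D, r + 1 < G.dist d z).card : ℝ) ≤
          Fintype.card V / (Real.log (Fintype.card V) + 1) ^ 2 →
        (copNumber G : ℝ) ≤ (2 * √(D.card : ℝ) + 81) * √(Fintype.card V : ℝ))) ∧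
    (∀ b : ℕ, 0 < b → (copNumber G : ℝ) ≤ 3 * Fintype.card V / √(b : ℝ) +
      2 * Fintype.card V / b * Real.log (Fintype.card V) + 1 +
      81 * √((Finset.univ.filter fun z =>
        (Finset.univ.filter fun v => G.dist v z ≤ r + 1).card < b).card : ℝ) *
          (Real.log (Fintype.card V) + 1)) ∧
    ∀ K : ℕ, 0 < K → ((Finset.univ.filter fun z =>
        K * (Finset.univ.filter fun v => G.dist v z ≤ r + 1).card < Fintype.card V).card : ℝ) ≤
          Fintype.card V / (Real.log (Fintype.card V) + 1) ^ 2 →
      (copNumber G : ℝ) ≤ (5 * K + 82) * √(Fintype.card V : ℝ) := by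
  have hV : Nonempty V := hG.nonempty
  have hn1 : (1 : ℝ) ≤ Fintype.card V := by exact_mod_cast Fintype.card_pos
  have hlog : 0 ≤ Real.log (Fintype.card V) := Real.log_nonneg hn1
  have hsn : 1 ≤ √(Fintype.card V : ℝ) := Real.one_le_sqrt.2 hn1
  have hm : ∀ m : ℝ, m ≤ Fintype.card V / (Real.log (Fintype.card V) + 1) ^ 2 →
      81 * √m * (Real.log (Fintype.card V) + 1) ≤ 81 * √(Fintype.card V : ℝ) := by
    intro m hm
    have h1 : √m ≤ √(Fintype.card V : ℝ) / (Real.log (Fintype.card V) + 1) := by
      refine (Real.sqrt_le_sqrt hm).trans (le_of_eq ?_)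
      rw [Real.sqrt_div (by positivity), Real.sqrt_sq (by positivity)]
    rw [le_div_iff₀ (by positivity)] at h1
    linarith
  refine ⟨fun s k y => Pool.Agent.NH63.D2.team_bound G hG r hr s k y, fun D hD => ⟨?_, fun h => ?_⟩,
    fun b hb => Pool.Agent.NH63.D2.ball_bound G hG r hr b hb, fun K hK h => ?_⟩
  · exact Pool.Agent.NH63.D2.dom_bound G hG r hr D hD
  · have h1 := Pool.Agent.NH63.D2.dom_bound G hG r hr D hD
    have h2 := hm _ h
    rw [Real.sqrt_mul (by positivity)] at h1
    linarith
  · have hK0 : (1 : ℝ) ≤ K := by exact_mod_cast hK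
    set n : ℝ := (Fintype.card V : ℝ) with hn
    set b : ℕ := ⌈n / K⌉₊ with hb
    have hb1 : n / K ≤ b := Nat.le_ceil _
    have hb0 : 0 < b := Nat.ceil_pos.2 (by positivity)
    have hbr : (0 : ℝ) < b := by exact_mod_cast hb0
    have h1 := Pool.Agent.NH63.D2.ball_bound G hG r hr b hb0
    have h2 : ((Finset.univ.filter fun z =>
        (Finset.univ.filter fun v => G.dist v z ≤ r + 1).card < b).card : ℝ) ≤
        n / (Real.log n + 1) ^ 2 := by
      refine le_trans (Nat.cast_le.2 (Finset.card_le_card fun z hz => ?_)) h
      have h3 := (Finset.mem_filter.1 hz).2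
      refine Finset.mem_filter.2 ⟨Finset.mem_univ _, ?_⟩
      have h4 := Nat.lt_ceil.1 h3
      rw [lt_div_iff₀ (by linarith), mul_comm] at h4
      refine (Nat.cast_lt (α := ℝ)).1 ?_
      push_cast
      exact h4
    have h3 := hm _ h2
    have hKn : n ≤ K * b := by
      rw [div_le_iff₀ (by linarith)] at hb1
      linarith
    have h4 : 3 * n / √(b : ℝ) ≤ 3 * K * √n := by
      rw [div_le_iff₀ (Real.sqrt_pos.2 hbr)]
      have e1 : √n ≤ √(K : ℝ) * √(b : ℝ) := by
        rw [← Real.sqrt_mul (by positivity)]
        exact Real.sqrt_le_sqrt hKn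
      have e2 : √(K : ℝ) ≤ K := by
        rw [Real.sqrt_le_left (by positivity)]
        nlinarith
      have e3 : √n ≤ K * √(b : ℝ) :=
        e1.trans (mul_le_mul_of_nonneg_right e2 (Real.sqrt_nonneg _))
      have e4 : n = √n * √n := (Real.mul_self_sqrt (by linarith)).symm
      have e5 : √n * √n ≤ √n * (K * √(b : ℝ)) :=
        mul_le_mul_of_nonneg_left e3 (Real.sqrt_nonneg _)
      nlinarith
    have h5 : 2 * n / b * Real.log n ≤ 2 * K * √n := by
      have e1 : 2 * n / b ≤ 2 * K := by
        rw [div_le_iff₀ hbr]
        linarith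
      have e2 : Real.log n ≤ √n := by
        have e3 : Real.log (√n) ≤ √n - 1 := Real.log_le_sub_one_of_pos (by linarith)
        have e4 : Real.log (√(√n)) ≤ √(√n) - 1 :=
          Real.log_le_sub_one_of_pos (Real.sqrt_pos.2 (by linarith))
        rw [Real.log_sqrt (Real.sqrt_nonneg _), Real.log_sqrt (by linarith)] at e4
        have e5 : √(√n) * √(√n) = √n := Real.mul_self_sqrt (Real.sqrt_nonneg _)
        nlinarith [sq_nonneg (√(√n) - 2)]
      exact mul_le_mul e1 e2 hlog (by positivity)
    linarith

end Pool.Agent.Results.MP_964892_co.DistanceTwoDomination
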