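import Pool.Agent.NH99.MED.Inst
import Pool.Agent.NH99.MED.Face

/-!
# The cop number of median graphs

A finite median graph whose largest cube has dimension `d` has cop number exactly `⌊d/2⌋ + 1`, so at
most `(log₂ n)/2 + 1`. The same is proved for the Hasse diagrams of all finite meet-semilattices with
a least element in which the existing joins are distributive, for instance for the face posets of
simplicial complexes.

Proof idea. Order the graph by a base point. All cops wait at the base point, and afterwards they
stay strictly below the robber `r`. Fix a vertex `o ≤ r`, the anchor. The lower neighbours of `r`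
above the anchor are guarded: each of them is above the cop to which it is assigned, and each cop
has at most two of them (one, if he is just below the robber; at most one cop is there). When the
robber goes up, the guarded vertices go up along squares, one new one appears, and all cops can
go up inside the meets of their vertices. When he goes down to a guarded vertex, some cop gains a
level; when he goes down to another vertex, the anchor goes down with him, and the guarded vertices
go down along squares. When he stays, a cop with at most one task goes up. The total distance of the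
cops, the level of the anchor and the level of the robber show that the game ends. The assignment is
possible as a vertex has at most `d` lower neighbours (they span a cube). For the lower bound, the
robber stays in a cube of dimension `d`; two vertices have at most two common neighbours.
-/

set_option autoImplicit false
open N6ef48c04

namespace Pool.Agent.Results.MP_964892_co.MedianGraphs

/-- `m` is a median of `x`, `y`, `z`: it is on a shortest path between any two of them. -/
def IsMedian {V : Type*} (G : SimpleGraph V) (x y z m : V) : Prop :=
  G.dist x m + G.dist m y = G.dist x y ∧ G.dist y m + G.dist m z = G.dist y z ∧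
    G.dist x m + G.dist m z = G.dist x z

/-- `G` contains the `m`-dimensional cube (the subsets of a set with `m` elements, two of them being
adjacent if they differ in one element) as a subgraph. -/
def ContainsCube {V : Type*} (G : SimpleGraph V) (m : ℕ) : Prop :=
  ∃ f : Finset (Fin m) → V, Function.Injective f ∧ ∀ T i, i ∉ T → G.Adj (f (insert i T)) (f T)

/-- the largest cube in `G` has dimension `d` -/
def IsCubeDim {V : Type*} (G : SimpleGraph V) (d : ℕ) : Prop :=
  ∀ m, ContainsCube G m ↔ m ≤ d

/-- (1) Let `G` be a finite connected median graph (every three vertices have exactly one median), and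
let `d` be the dimension of the largest cube in `G`. Then `c(G) = ⌊d/2⌋ + 1`, and
`c(G) ≤ (log₂ n)/2 + 1`, where `n` is the number of the vertices.
(2) The same holds for the Hasse diagram of every finite meet-semilattice with a least element in
which `x ⊓ (y ⊔ z) = (x ⊓ y) ⊔ (x ⊓ z)` whenever `y ⊔ z` exists.
(3) If `F` is a nonempty down-closed family of finite sets, and `d` is the largest size of a member,
then the graph of the members of `F`, two members being adjacent if they differ in exactly one
element, has cop number `⌊d/2⌋ + 1`. -/
theorem result :
    (∀ (V : Type) [Fintype V] (G : SimpleGraph V), G.Connected →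
      (∀ x y z : V, ∃! m, IsMedian G x y z m) →
      ∃ d, IsCubeDim G d ∧ copNumber G = d / 2 + 1 ∧
        (copNumber G : ℝ) ≤ Real.logb 2 (Fintype.card V) / 2 + 1) ∧
    (∀ (P : Type) [Fintype P] [SemilatticeInf P] [OrderBot P],
      (∀ x y z u : P, IsLUB {y, z} u → IsLUB {x ⊓ y, x ⊓ z} (x ⊓ u)) →
      ∃ d, IsCubeDim (SimpleGraph.hasse P) d ∧ copNumber (SimpleGraph.hasse P) = d / 2 + 1 ∧
        (copNumber (SimpleGraph.hasse P) : ℝ) ≤ Real.logb 2 (Fintype.card P) / 2 + 1) ∧
    (∀ (α : Type) [DecidableEq α] (F : Finset (Finset α)), F.Nonempty →
      (∀ A ∈ F, ∀ B ⊆ A, B ∈ F) → ∀ G : SimpleGraph {A // A ∈ F},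
      (∀ A B : {A // A ∈ F}, G.Adj A B ↔
        (∃ a ∉ A.1, insert a A.1 = B.1) ∨ (∃ a ∉ B.1, insert a B.1 = A.1)) →
      copNumber G = F.sup Finset.card / 2 + 1) := by
  refine ⟨?_, ?_, ?_⟩
  · intro V _ G hG hM
    have hv : Nonempty V := hG.nonempty
    have S := Pool.Agent.NH99.MED.medSys hG hM hv.some
    obtain ⟨d, h1, h2⟩ := Pool.Agent.NH99.MED.copNumber_eq S
    exact ⟨d, h1, h2, Pool.Agent.NH99.MED.copNumber_log S⟩
  · intro P _ _ _ hP
    have S := Pool.Agent.NH99.MED.latSys (P := P) hP
    obtain ⟨d, h1, h2⟩ := Pool.Agent.NH99.MED.copNumber_eq S
    exact ⟨d, h1, h2, Pool.Agent.NH99.MED.copNumber_log S⟩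
  · intro α _ F hne hF G hG
    obtain ⟨A, hA⟩ := hne
    have h0 : ∅ ∈ F := hF A hA ∅ (Finset.empty_subset A)
    have h1 : G = Pool.Agent.NH99.MED.faceGraph F := by
      ext A B
      exact hG A B
    rw [h1]
    exact Pool.Agent.NH99.MED.face_copNumber F h0 hF

end Pool.Agent.Results.MP_964892_co.MedianGraphs
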