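import Pool.Agent.NH84.RC.Bound
import Pool.Agent.NH84.RC.Frac

set_option autoImplicit false
open N6ef48c04

namespace Pool.Agent.Results.MP_964892_co.RetractCovers

/-!
# Meyniel's bound for graphs covered by few retracts, and for products of graphs

Let `G` be a connected graph on `n` vertices. A retraction of `G` onto a set `H` of vertices is a map
`f` into `H` which fixes the vertices of `H` and maps adjacent vertices to equal or adjacent vertices.
If all but `n / (log n + 1)²` of the vertices are covered by `O(√n)` retracts with at most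
`n / (log n + 1)²` vertices each, then `c(G) = O(√n)`. The cops first catch the shadow `f(r)` of the
robber `r` in `H`; from then on one cop prevents him from entering `H`. (This is well known for one
retract, Berarducci and Intrigila.) The same team of cops is used for one retract after the other; it
consists of `O(√s log s)` cops for retracts with `s` vertices, by the bound of the starting file
`SqrtLog`, and the entropy method of the starting files deals with the vertices which are not covered,
at the same time.

Products. The cop number of a Cartesian product is at most the sum of those of the factors (Tošić), so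
Meyniel's bound for the factors implies the bound for the product. Here Meyniel's bound is proved
without any assumption on the factors, with an absolute constant: for all graphs `G` between the
Cartesian product and the strong product of two connected graphs with at most `n / (log n + 1)²`
vertices, `n` being the number of the vertices of `G`. (For products of more factors, consider a
product of some of them as one factor.) The retracts are the fibres of the projection to the smaller
factor. Similarly, if a finite group `Γ` has an idempotent endomorphism `π` which maps the connection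
set `S` into `S ∪ {1}` (so `Γ` is a semidirect product of the kernel and the image of `π`), the bound
holds for the Cayley graph if the kernel has at most `√n` elements and the image has at most
`n / (log n + 1)²` elements; nothing is assumed about the structure of these groups.
-/

/-- Each vertex can be mapped to each other vertex by an automorphism. -/
def VertexTransitive {V : Type*} (G : SimpleGraph V) : Prop :=
  ∀ x y : V, ∃ φ : G ≃g G, φ x = y

/-- `f` is a retraction of the graph `G` onto the set `H` of vertices: adjacent vertices have equal or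
adjacent images, the images are in `H`, and the vertices of `H` are fixed. -/
def IsRetraction {V : Type*} (G : SimpleGraph V) (H : Set V) (f : V → V) : Prop :=
  (∀ x y, G.Adj x y → f x = f y ∨ G.Adj (f x) (f y)) ∧ (∀ x, f x ∈ H) ∧ ∀ x ∈ H, f x = x

/-- The undirected Cayley graph of `Γ` with connection set `S`. -/
def cayley {Γ : Type*} [Group Γ] (S : Set Γ) : SimpleGraph Γ where
  Adj x y := x ≠ y ∧ (x⁻¹ * y ∈ S ∨ y⁻¹ * x ∈ S)
  symm := ⟨fun _ _ h => ⟨h.1.symm, h.2.symm⟩⟩
  loopless := ⟨fun _ h => h.1 rfl⟩

/-- (1) Let `G` be a connected graph on `n` vertices, and let `H i`, `i < p`, be images of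
retractions of `G` which cover all the vertices outside `U`.
(a) If the graphs `G[H i]` have cop numbers at most `q`, then
`c(G) ≤ p + q + 81 √|U| (log n + 1)`.
(b) If the `H i` have at most `s` vertices, then
`c(G) ≤ p + 81 √s (log s + 1) + 81 √|U| (log n + 1)`.
(c) If `p ≤ √n`, `s (log n + 1)² ≤ n` and `|U| (log n + 1)² ≤ n`, then `c(G) ≤ 163 √n`.
(2) Let `G` be a graph between the Cartesian and the strong product of two connected graphs on `n₁`
and `n₂` vertices, `n = n₁ n₂`. Then `c(G) ≤ n₁ + 81 √n₂ (log n₂ + 1)`, and `c(G) ≤ 82 √n` if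
`n₁ (log n + 1)² ≤ n` and `n₂ (log n + 1)² ≤ n`.
(3) Let `G` be a connected Cayley graph of a finite group with connection set `S`, and `π` an
idempotent endomorphism of the group with `π(S) ⊆ S ∪ {1}`, whose kernel and image have `n₁` and `n₂`
elements. Then `c(G) ≤ n₁ + 81 √n₂ (log n₂ + 1)`.
(4) Let `G` be connected and vertex-transitive, with `n` vertices, and let `H` be the image of a
retraction of `G`. Then `c(G) ≤ s n / |H| + c(G[H]) + 2 + 81 √n exp (-s / 2) (log n + 1)` for all
`s ≥ 0`, and `c(G) ≤ c(G[H]) + 85 √n` if `|H| ≥ √n log (log n + 1)`; so `c(G) ≤ 166 √n` if moreover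
`|H| (log n + 1)² ≤ n`. More generally, let `H i` be images of retractions of a connected graph, with
cop numbers at most `q`, and let `w i ≥ 0` be weights such that for every vertex outside `U` the sum of
the weights of the `H i` which contain it is at least `1`. Then
`c(G) ≤ s ∑ w i + q + 2 + 81 (√n exp (-s / 2) + √|U|) (log n + 1)`. -/
theorem result :
    (∀ (V : Type) [Fintype V] (G : SimpleGraph V), G.Connected →
      ∀ (p : ℕ) (H : Fin p → Set V) (f : Fin p → V → V), (∀ i, IsRetraction G (H i) (f i)) →
      ∀ U : Finset V, (∀ x, x ∈ U ∨ ∃ i, x ∈ H i) →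
        (∀ q : ℕ, (∀ i, copNumber (G.induce (H i)) ≤ q) →
          (copNumber G : ℝ) ≤ p + q + 81 * √(U.card : ℝ) * (Real.log (Fintype.card V) + 1)) ∧
        (∀ s : ℕ, (∀ i, (H i).ncard ≤ s) →
          (copNumber G : ℝ) ≤ p + 81 * √(s : ℝ) * (Real.log s + 1) +
            81 * √(U.card : ℝ) * (Real.log (Fintype.card V) + 1) ∧
          ((p : ℝ) ≤ √(Fintype.card V : ℝ) →
            (s : ℝ) * (Real.log (Fintype.card V) + 1) ^ 2 ≤ Fintype.card V →
            (U.card : ℝ) * (Real.log (Fintype.card V) + 1) ^ 2 ≤ Fintype.card V →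
            (copNumber G : ℝ) ≤ 163 * √(Fintype.card V : ℝ)))) ∧
    (∀ (V₁ V₂ : Type) [Fintype V₁] [Fintype V₂] (G₁ : SimpleGraph V₁) (G₂ : SimpleGraph V₂)
      (G : SimpleGraph (V₁ × V₂)), G₁.Connected → G₂.Connected →
      (∀ u v : V₁ × V₂, (G₁.Adj u.1 v.1 ∧ u.2 = v.2) ∨ (u.1 = v.1 ∧ G₂.Adj u.2 v.2) →
        G.Adj u v) →
      (∀ u v : V₁ × V₂, G.Adj u v →
        (u.1 = v.1 ∨ G₁.Adj u.1 v.1) ∧ (u.2 = v.2 ∨ G₂.Adj u.2 v.2)) →
      (copNumber G : ℝ) ≤ Fintype.card V₁ + 81 * √(Fintype.card V₂ : ℝ) *
          (Real.log (Fintype.card V₂) + 1) ∧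
        ((Fintype.card V₁ : ℝ) * (Real.log (Fintype.card (V₁ × V₂)) + 1) ^ 2 ≤
            Fintype.card (V₁ × V₂) →
          (Fintype.card V₂ : ℝ) * (Real.log (Fintype.card (V₁ × V₂)) + 1) ^ 2 ≤
            Fintype.card (V₁ × V₂) →
          (copNumber G : ℝ) ≤ 82 * √(Fintype.card (V₁ × V₂) : ℝ))) ∧
    (∀ (Γ : Type) [Group Γ] [Finite Γ] (S : Set Γ), (cayley S).Connected →
      ∀ π : Γ →* Γ, (∀ g, π (π g) = π g) → (∀ s ∈ S, π s ∈ S ∨ π s = 1) →
      (copNumber (cayley S) : ℝ) ≤ Nat.card π.ker + 81 * √(Nat.card π.range : ℝ) *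
        (Real.log (Nat.card π.range) + 1)) ∧
    (∀ (V : Type) [Fintype V] (G : SimpleGraph V), G.Connected → VertexTransitive G →
      ∀ (H : Set V) (f : V → V), IsRetraction G H f →
        (∀ s : ℝ, 0 ≤ s → (copNumber G : ℝ) ≤ s * (Fintype.card V / H.ncard) +
          copNumber (G.induce H) + 2 +
          81 * √(Fintype.card V : ℝ) * Real.exp (-(s / 2)) * (Real.log (Fintype.card V) + 1)) ∧
        (√(Fintype.card V : ℝ) * Real.log (Real.log (Fintype.card V) + 1) ≤ H.ncard →
          (copNumber G : ℝ) ≤ copNumber (G.induce H) + 85 * √(Fintype.card V : ℝ) ∧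
          ((H.ncard : ℝ) * (Real.log (Fintype.card V) + 1) ^ 2 ≤ Fintype.card V →
            (copNumber G : ℝ) ≤ 166 * √(Fintype.card V : ℝ)))) ∧
    ∀ (V ι : Type) [Fintype V] [Fintype ι] (G : SimpleGraph V), G.Connected →
      ∀ (H : ι → Set V) (f : ι → V → V), (∀ i, IsRetraction G (H i) (f i)) →
      ∀ q : ℕ, (∀ i, copNumber (G.induce (H i)) ≤ q) → ∀ w : ι → ℝ, (∀ i, 0 ≤ w i) →
      ∀ U : Finset V,
      (∀ z, z ∉ U → 1 ≤ ∑ i, (open scoped Classical in if z ∈ H i then w i else 0)) →
      ∀ s : ℝ, 0 ≤ s → (copNumber G : ℝ) ≤ s * ∑ i, w i + q + 2 +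
        81 * (√(Fintype.card V : ℝ) * Real.exp (-(s / 2)) + √(U.card : ℝ)) *
          (Real.log (Fintype.card V) + 1) := by
  refine ⟨?_, ?_, ?_, ?_, ?_⟩
  · intro V _ G hG p H f hf U hU
    have hf' : ∀ i, Pool.Agent.NH84.RC.Retraction G (H i) (f i) :=
      fun i => ⟨(hf i).1, (hf i).2.1, (hf i).2.2⟩
    refine ⟨fun q hq => Pool.Agent.NH84.RC.retract_bound hG p q H f hf' hq U hU, fun s hs =>
      ⟨Pool.Agent.NH84.RC.retract_size hG p s H f hf' hs U hU, fun hp hsn hUn => ?_⟩⟩
    have := Pool.Agent.NH84.RC.retract_meyniel hG p s H f hf' hs U hU hsn hUn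
    linarith
  · intro V₁ V₂ _ _ G₁ G₂ G hG₁ hG₂ hle hge
    refine Pool.Agent.NH84.RC.product_meyniel G₁ G₂ hG₁ hG₂ (fun u v h => hle u v ?_) hge
    rcases SimpleGraph.boxProd_adj.1 h with h1 | h1
    · exact Or.inl h1
    · exact Or.inr ⟨h1.2, h1.1⟩
  · intro Γ _ _ S hconn π hπ hS
    have := Fintype.ofFinite Γ
    exact Pool.Agent.NH84.RC.cayley_bound S hconn π hπ hS
  · intro V _ G hG ht H f hf
    have hf' : Pool.Agent.NH84.RC.Retraction G H f := ⟨hf.1, hf.2.1, hf.2.2⟩
    refine ⟨fun s hs => Pool.Agent.NH84.RC.trans_retract hG ht H f hf' s hs, fun h1 =>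
      ⟨Pool.Agent.NH84.RC.trans_retract_meyniel hG ht H f hf' h1, fun h2 => ?_⟩⟩
    have h3 := Pool.Agent.NH84.RC.trans_retract_meyniel hG ht H f hf' h1
    have h4 := Pool.Agent.NH84.RC.retract_cop_small hG H f hf' h2
    linarith
  · intro V ι _ _ G hG H f hf q hq w hw U hz s hs
    exact Pool.Agent.NH84.RC.frac_retract hG H f (fun i => ⟨(hf i).1, (hf i).2.1, (hf i).2.2⟩) q hq
      w hw U hz s hs

end Pool.Agent.Results.MP_964892_co.RetractCovers
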