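import Pool.Agent.NH60.VT.LawM
import Pool.Agent.NH84.DR.Fin

set_option autoImplicit false
open N6ef48c04

namespace Pool.Agent.Results.MP_964892_co.VertexTransitive

/-!
# Meyniel's bound for vertex-transitive and nearly distance-regular graphs

A set `W` of vertices is cleared by `k` cops if these can force, at any given late time, that the
robber is outside `W` or caught. For a fractional cover of the vertices by cleared sets, sets chosen
greedily leave a fraction `exp (-s)` of the vertices, which the entropy bound of the starting files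
deals with. And `4 r + 1` cops clear all the vertices at distance at most `r` from a shortest path,
if there are no cycles of length less than `4 r - 1`: with `r` rounds to go they stand on the path
around the shadow of the robber. If the points of a random shortest path are nearly uniformly
distributed, these sets are a good cover: for example the translates of one shortest path in a
vertex-transitive graph, or the random shortest paths in a nearly distance-regular graph. So
Meyniel's bound holds for the vertex-transitive and for the distance-regular graphs of degree `d`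
and diameter `D` with `(D + 1) (d + 1) ≥ √n log (log n + 1)`.
-/

/-- Robber to move: the cops at `c` can force the condition `T` after exactly `h` rounds against
the robber at `x`. In each round the robber moves (or stays), then the cops move (or stay). -/
def Force {V : Type*} (G : SimpleGraph V) {ι : Type*} (T : (ι → V) → V → Prop) :
    ℕ → (ι → V) → V → Prop
  | 0, c, x => T c x
  | h + 1, c, x => ∀ x', Step G x x' →
      ∃ c' : ι → V, (∀ i, Step G (c i) (c' i)) ∧ Force G T h c' x'

/-- `k` cops can clear `W`: from every common starting vertex `o` and for every large enough `m`,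
they can force, wherever the robber starts, that after exactly `m` rounds he is outside `W` or at
the vertex of a cop. -/
def Clears {V : Type*} (G : SimpleGraph V) (k : ℕ) (W : Finset V) : Prop :=
  ∀ o : V, ∃ M : ℕ, ∀ m, M ≤ m → ∀ x,
    Force G (fun (c : Fin k → V) x => x ∈ W → ∃ i, c i = x) m (fun _ => o) x

/-- `p 0, ..., p L` is a shortest path. -/
def IsGeodesic {V : Type*} (G : SimpleGraph V) (p : ℕ → V) (L : ℕ) : Prop :=
  ∀ i j, i ≤ j → j ≤ L → G.dist (p i) (p j) = j - i

/-- All cycles have length at least `g`. -/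
def GirthAtLeast {V : Type*} (G : SimpleGraph V) (g : ℕ) : Prop :=
  ∀ (a : V) (w : G.Walk a a), w.IsCycle → g ≤ w.length

/-- Each vertex can be mapped to each other vertex by an automorphism. -/
def VertexTransitive {V : Type*} (G : SimpleGraph V) : Prop :=
  ∀ x y : V, ∃ φ : G ≃g G, φ x = y

/-- the number of vertices at distance at most `r` from `v` -/
noncomputable def ball {V : Type*} [Fintype V] (G : SimpleGraph V) (r : ℕ) (v : V) : ℕ :=
  (Finset.univ.filter fun x => G.dist v x ≤ r).card

/-- the number of neighbours of `y` which are farther away from `x` than `y` -/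
noncomputable def forward {V : Type*} (G : SimpleGraph V) (x y : V) : ℕ :=
  {z | G.Adj y z ∧ G.dist x z = G.dist x y + 1}.ncard

theorem force_iff {V : Type*} (G : SimpleGraph V) {ι : Type*} (T : (ι → V) → V → Prop) (h : ℕ) :
    ∀ (c : ι → V) (x : V), Force G T h c x ↔ Pool.Agent.TH524.Mey.Play G T h c x := by
  induction h with
  | zero => exact fun c x => Iff.rfl
  | succ h ih =>
    intro c x
    refine forall_congr' fun x' => imp_congr_right fun _ => exists_congr fun c' =>
      and_congr_right fun _ => ih c' x'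

theorem clears_iff {V : Type*} (G : SimpleGraph V) (k : ℕ) (W : Finset V) :
    Clears G k W ↔ Pool.Agent.TH524.Mey.Clears G k W :=
  forall_congr' fun _ => exists_congr fun _ => forall_congr' fun _ => imp_congr_right fun _ =>
    forall_congr' fun _ => force_iff G _ _ _ _

/-- Let `G` be a connected graph on `n` vertices, with cop number `c(G)`, and `s ≥ 0` real.
(1) Let `k i ≤ m` cops clear the set `W i`, and let `w i ≥ 0` be such that the sum of `w i` over the
sets which contain `z` is at least `1`, for all vertices `z` outside `U`. Then `c(G)` is at most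
`s ∑ w i k i + m + 1 + 81 (√n exp (-s / 2) + √|U|) (log n + 1)`.
(2) If there are no cycles of length less than `4 r - 1` (this is no condition if `r = 1`), then
`4 r + 1` cops clear every set of vertices at distance at most `r` from a given shortest path.
(3) Suppose that there are no cycles of length less than `4 r - 1`, where `r ≥ 1`, and that every
ball of radius `r` has at least `b ≥ 1` vertices. If for a random shortest path `p 0, ..., p L`
every `p j` is equal to every vertex `z` with probability at least `θ > 0`, then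
`c(G) ≤ 15 r² s / (θ (L + 1) b) + 4 r + 2 + 81 √n exp (-s / 2) (log n + 1)`; and
`c(G) ≤ 117 √n` if moreover `r ≤ √n` and `n θ (L + 1) b ≥ r² √n log (log n + 1)`.
(4) Let `r` and `b` be as in (3). Suppose that for `dist (x, y) = j < L` the number of neighbours of
`y` at distance `j + 1` from `x` is between `lo j ≥ 1` and `hi j`, where `∏ hi j ≤ K ∏ lo j`. Then
`c(G) ≤ 15 r² s K n / ((L + 1) b) + 4 r + 2 + 81 √n exp (-s / 2) (log n + 1)`; and
`c(G) ≤ 117 √n` if moreover `r ≤ √n` and `(L + 1) b ≥ K r² √n log (log n + 1)`. For example `K = 1`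
and `L` is the diameter in a distance-regular graph.
Let now `G` be vertex-transitive.
(5) If `k` cops clear the set `W ≠ ∅`, then
`c(G) ≤ s k n / |W| + k + 1 + 81 √n exp (-s / 2) (log n + 1)`; and `c(G) ≤ 85 √n` if moreover
`k ≤ √n` and `|W| ≥ k √n log (log n + 1)`.
(6) Suppose that there are no cycles of length less than `4 r - 1`, where `r ≥ 1`, that some two
vertices have distance `D`, and that the balls of radius `r` have `b` vertices. Then
`c(G) ≤ 15 r² s n / ((D + 1) b) + 4 r + 2 + 81 √n exp (-s / 2) (log n + 1)`; and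
`c(G) ≤ 117 √n` if moreover `r ≤ √n` and `(D + 1) b ≥ r² √n log (log n + 1)`.
(7) If `(D + 1) (d + 1) ≥ √n log (log n + 1)` for the degree `d` and some distance `D` (for example
the diameter), then `c(G) ≤ 117 √n`. -/
theorem result {V : Type} [Fintype V] [DecidableEq V] (G : SimpleGraph V) [DecidableRel G.Adj]
    (hG : G.Connected) :
    (∀ (ι : Type) [Fintype ι] (W : ι → Finset V) (k : ι → ℕ) (m : ℕ) (w : ι → ℝ) (U : Finset V)
      (s : ℝ), 0 ≤ s → (∀ i, 1 ≤ k i ∧ k i ≤ m ∧ Clears G (k i) (W i) ∧ 0 ≤ w i) →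
      (∀ z, z ∉ U → 1 ≤ ∑ i, if z ∈ W i then w i else 0) →
      (copNumber G : ℝ) ≤ s * (∑ i, w i * k i) + m + 1 +
        81 * (√(Fintype.card V : ℝ) * Real.exp (-(s / 2)) + √(U.card : ℝ)) *
          (Real.log (Fintype.card V) + 1)) ∧
    (∀ (r : ℕ) (p : ℕ → V) (L : ℕ), GirthAtLeast G (4 * r - 1) → IsGeodesic G p L →
      ∀ W : Finset V, (∀ x ∈ W, ∃ j ≤ L, G.dist (p j) x ≤ r) → Clears G (4 * r + 1) W) ∧
    (∀ (r b : ℕ), 1 ≤ r → GirthAtLeast G (4 * r - 1) → 1 ≤ b → (∀ v, b ≤ ball G r v) →
      ∀ (ι : Type) [Fintype ι] (p : ι → ℕ → V) (L : ℕ) (w : ι → ℝ) (θ : ℝ),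
        (∀ i, IsGeodesic G (p i) L ∧ 0 ≤ w i) → ∑ i, w i = 1 → 0 < θ →
        (∀ j ≤ L, ∀ z, θ ≤ ∑ i, if p i j = z then w i else 0) →
        (∀ s : ℝ, 0 ≤ s → (copNumber G : ℝ) ≤ 15 * r ^ 2 * s / (θ * (L + 1) * b) + 4 * r + 2 +
          81 * √(Fintype.card V : ℝ) * Real.exp (-(s / 2)) * (Real.log (Fintype.card V) + 1)) ∧
        ((r : ℝ) ≤ √(Fintype.card V : ℝ) →
          (r : ℝ) ^ 2 * √(Fintype.card V : ℝ) * Real.log (Real.log (Fintype.card V) + 1) ≤
            Fintype.card V * θ * (L + 1) * b →
          (copNumber G : ℝ) ≤ 117 * √(Fintype.card V : ℝ))) ∧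
    (∀ (r b : ℕ), 1 ≤ r → GirthAtLeast G (4 * r - 1) → 1 ≤ b → (∀ v, b ≤ ball G r v) →
      ∀ (L : ℕ) (lo hi : ℕ → ℕ) (K : ℝ), (∀ j, j < L → 1 ≤ lo j ∧ lo j ≤ hi j) →
        (∀ x y, G.dist x y < L → lo (G.dist x y) ≤ forward G x y ∧
          forward G x y ≤ hi (G.dist x y)) →
        ∏ j ∈ Finset.range L, (hi j : ℝ) ≤ K * ∏ j ∈ Finset.range L, (lo j : ℝ) →
        (∀ s : ℝ, 0 ≤ s → (copNumber G : ℝ) ≤
          15 * r ^ 2 * s * K * (Fintype.card V / ((L + 1) * b)) + 4 * r + 2 +
          81 * √(Fintype.card V : ℝ) * Real.exp (-(s / 2)) * (Real.log (Fintype.card V) + 1)) ∧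
        ((r : ℝ) ≤ √(Fintype.card V : ℝ) →
          K * (r : ℝ) ^ 2 * √(Fintype.card V : ℝ) * Real.log (Real.log (Fintype.card V) + 1) ≤
            (L + 1) * b →
          (copNumber G : ℝ) ≤ 117 * √(Fintype.card V : ℝ))) ∧
    (VertexTransitive G →
      (∀ (k : ℕ) (W : Finset V), 1 ≤ k → W.Nonempty → Clears G k W →
        (∀ s : ℝ, 0 ≤ s → (copNumber G : ℝ) ≤ s * (k * Fintype.card V / W.card) + k + 1 +
          81 * √(Fintype.card V : ℝ) * Real.exp (-(s / 2)) * (Real.log (Fintype.card V) + 1)) ∧
        ((k : ℝ) ≤ √(Fintype.card V : ℝ) →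
          (k : ℝ) * √(Fintype.card V : ℝ) * Real.log (Real.log (Fintype.card V) + 1) ≤ W.card →
          (copNumber G : ℝ) ≤ 85 * √(Fintype.card V : ℝ))) ∧
      (∀ r : ℕ, 1 ≤ r → GirthAtLeast G (4 * r - 1) → ∀ a b v : V,
        (∀ s : ℝ, 0 ≤ s → (copNumber G : ℝ) ≤ 15 * r ^ 2 * s * (Fintype.card V /
          ((G.dist a b + 1) * ball G r v)) + 4 * r + 2 +
          81 * √(Fintype.card V : ℝ) * Real.exp (-(s / 2)) * (Real.log (Fintype.card V) + 1)) ∧
        ((r : ℝ) ≤ √(Fintype.card V : ℝ) →
          (r : ℝ) ^ 2 * √(Fintype.card V : ℝ) * Real.log (Real.log (Fintype.card V) + 1) ≤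
            (G.dist a b + 1) * ball G r v →
          (copNumber G : ℝ) ≤ 117 * √(Fintype.card V : ℝ))) ∧
      ∀ a b v : V, √(Fintype.card V : ℝ) * Real.log (Real.log (Fintype.card V) + 1) ≤
          (G.dist a b + 1) * (G.degree v + 1) →
        (copNumber G : ℝ) ≤ 117 * √(Fintype.card V : ℝ)) := by
  classical
  refine ⟨fun ι _ W k m w U s hs hk hz => ?_, fun r p L hg hp W hW => ?_,
    fun r b hr hg hb0 hb ι _ p L w θ hp hw1 hθ hm => ⟨fun s hs => ?_, fun h1 h2 => ?_⟩,
    fun r b hr hg hb0 hb L lo hi K hlo hf hK => ?_, fun ht => ⟨?_, ?_, ?_⟩⟩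
  · refine Pool.Agent.NH60.VT.cost_bound G hG W k (fun i => (hk i).1) m (fun i => (hk i).2.1)
      (fun i => (clears_iff G _ _).1 (hk i).2.2.1) w (fun i => (hk i).2.2.2) U (fun z h => ?_) s hs
    have h1 := hz z h
    rw [← Finset.sum_filter] at h1
    convert h1
  · rw [clears_iff]
    exact Pool.Agent.NH60.VT.ball_clears G hG r hg p L hp W hW
  · exact Pool.Agent.NH60.VT.law_bound G hG r hr hg L b hb0 p (fun i => (hp i).1) w
      (fun i => (hp i).2) hw1 θ hθ (fun j hj z => by convert hm j hj z) hb s hs
  · exact Pool.Agent.NH60.VT.law_meyniel G hG r hr hg L b hb0 p (fun i => (hp i).1) w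
      (fun i => (hp i).2) hw1 θ hθ (fun j hj z => by convert hm j hj z) hb h1 h2
  · exact Pool.Agent.NH84.DR.near_regular G hG r L b lo hi K hr hb0 hg hb hlo hf hK
  · intro k W hk hne hW
    rw [clears_iff] at hW
    refine ⟨fun s hs => ?_, fun h1 h2 => ?_⟩
    · exact Pool.Agent.NH60.VT.transitive_cost_s V G hG ht k hk W hW hne s hs
    · exact Pool.Agent.NH60.VT.transitive_meyniel V G hG ht k hk W hW hne h1 h2
  · intro r hr hg a b v
    refine ⟨fun s hs => ?_, fun h1 h2 => ?_⟩
    · exact Pool.Agent.NH60.VT.transitive_ball_s V G hG ht r hr hg a b v s hs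
    · exact Pool.Agent.NH60.VT.transitive_ball_meyniel V G hG ht r hr hg a b v h1 h2
  · intro a b v h
    exact Pool.Agent.NH60.VT.transitive_degree V G hG ht a b v h

end Pool.Agent.Results.MP_964892_co.VertexTransitive
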